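import Pool.Agent.X32.NF.Blocks
import Pool.Agent.Results.MP_c40b92_nt.CubicEquations

/-!
# Archimedean unit balls and norm equations

Let `k` be a number field and let `σ : k → ℂ` be an embedding whose image is not contained in `ℝ`
(for a totally complex field this is every embedding). A set `S` of points over `k` is *linked* if
any two points of `S` are values of one rational map over `k` from an affine space, the first one at
a point over `k`, the second one at a point over the algebraic closure, such that all values of the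
map at points over `k` are in `S`. Affine spaces, quadrics `q(y) = c` (`q` a nondegenerate quadratic
form in at least two variables, `c ≠ 0`) and the sets `N₁(z₁) ⋯ N_m(z_m) = c` (`N_j` the norm of a
finite extension of `k`, or the reduced norm of a division algebra, `c ≠ 0`) are linked.

We consider finite unions `D` of sets of the following two kinds: the sets
`{x | ∃ z ∈ kⁿ, f(x, z) = 0}` with `f` over `k` of total degree at most three (see
`CubicEquations`), and the sets of the values of a rational function at the points of a product of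
linked sets. If `D` is contained in the closed unit ball `B = {x ∈ k | |σ(x)| ≤ 1}`, then each set of
the second kind has at most one element; the union is thin, the set of the inverses of its nonzero
elements is thin, and for every bound there is a larger integer `m` such that `1/m` is not in `D`. In
particular `B` is not a union of this kind.
-/

set_option autoImplicit false

namespace Pool.Agent.Results.MP_c40b92_nt.NormEquations

open MvPolynomial Pool.Agent.TH783.CE Pool.Agent.TH783.UB Pool.Agent.X32.NF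

theorem result :
    -- affine spaces, quadrics and norm equations are linked
    (∀ (K : Type) [Field K] [CharZero K] (n : ℕ) (S : Set (Fin n → K)), Block S → Linked S) ∧
    -- the closed unit ball is not such a union
    (∀ (k : Type) [Field k] [NumberField k] (σ : k →+* ℂ), (∃ z : k, (σ z).im ≠ 0) →
      ∀ (r l : ℕ) (n : Fin r → ℕ) (f : ∀ i, MvPolynomial (Fin (n i + 1)) k),
      (∀ i, (f i).totalDegree ≤ 3) →
      ∀ (s : Fin l → ℕ) (d : ∀ i, Fin (s i) → ℕ) (S : ∀ i, ∀ j, Set (Fin (d i j) → k)),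
      (∀ i j, Linked (S i j)) →
      ∀ p q : ∀ i, MvPolynomial ((j : Fin (s i)) × Fin (d i j)) k,
      Union n f s d S p q ≠ {x : k | ‖σ x‖ ≤ 1}) ∧
    -- such unions in the ball
    (∀ (k : Type) [Field k] [NumberField k] (σ : k →+* ℂ), (∃ z : k, (σ z).im ≠ 0) →
      ∀ (r l : ℕ) (n : Fin r → ℕ) (f : ∀ i, MvPolynomial (Fin (n i + 1)) k),
      (∀ i, (f i).totalDegree ≤ 3) →
      ∀ (s : Fin l → ℕ) (d : ∀ i, Fin (s i) → ℕ) (S : ∀ i, ∀ j, Set (Fin (d i j) → k)),
      (∀ i j, Linked (S i j)) →
      ∀ p q : ∀ i, MvPolynomial ((j : Fin (s i)) × Fin (d i j)) k,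
      Union n f s d S p q ⊆ {x : k | ‖σ x‖ ≤ 1} →
      (∀ i, (values (S i) (p i) (q i)).Subsingleton) ∧
      Thin (Union n f s d S p q) ∧
      Thin {x : k | x ≠ 0 ∧ x⁻¹ ∈ Union n f s d S p q} ∧
      ∀ B : ℤ, ∃ m : ℤ, B < m ∧ (m : k)⁻¹ ∉ Union n f s d S p q) := by
  have main : ∀ (k : Type) [Field k] [NumberField k] (σ : k →+* ℂ), (∃ z : k, (σ z).im ≠ 0) →
      ∀ (r l : ℕ) (n : Fin r → ℕ) (f : ∀ i, MvPolynomial (Fin (n i + 1)) k),
      (∀ i, (f i).totalDegree ≤ 3) →
      ∀ (s : Fin l → ℕ) (d : ∀ i, Fin (s i) → ℕ) (S : ∀ i, ∀ j, Set (Fin (d i j) → k)),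
      (∀ i j, Linked (S i j)) →
      ∀ p q : ∀ i, MvPolynomial ((j : Fin (s i)) × Fin (d i j)) k,
      Union n f s d S p q ⊆ {x : k | ‖σ x‖ ≤ 1} →
      (∀ i, (values (S i) (p i) (q i)).Subsingleton) ∧
      Thin (Union n f s d S p q) ∧
      Thin {x : k | x ≠ 0 ∧ x⁻¹ ∈ Union n f s d S p q} ∧
      ∀ B : ℤ, ∃ m : ℤ, B < m ∧ (m : k)⁻¹ ∉ Union n f s d S p q := by
    rintro k _ _ σ ⟨w, hw⟩ r l n f hf s d S hS p q h
    have hfin : ∀ i, (values (S i) (p i) (q i)).Subsingleton := fun i =>
      values_sub (flat_ball σ hw) (S i) (hS i) _ _ fun t ht => h (Or.inr ⟨i, ht⟩)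
    have hfU : (⋃ i, values (S i) (p i) (q i)).Finite := Set.finite_iUnion fun i => (hfin i).finite
    obtain ⟨h1, h2, -⟩ := CubicEquations.result.2 k σ ⟨w, hw⟩ r n f hf fun x hx => h (Or.inl hx)
    have hthin : Thin (Union n f s d S p q) := by
      refine (h1.union (Thin.of_finite hfU)).mono ?_
      rintro x (hx | ⟨i, hx⟩)
      · exact Or.inl hx
      · exact Or.inr (Set.mem_iUnion.2 ⟨i, hx⟩)
    have hthin' : Thin {x : k | x ≠ 0 ∧ x⁻¹ ∈ Union n f s d S p q} := by
      refine (h2.union (Thin.of_finite (hfU.image fun x => x⁻¹))).mono ?_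
      rintro x ⟨hx0, hx | ⟨i, hx⟩⟩
      · exact Or.inl ⟨hx0, hx⟩
      · exact Or.inr ⟨x⁻¹, Set.mem_iUnion.2 ⟨i, hx⟩, inv_inv x⟩
    refine ⟨hfin, hthin, hthin', fun B => ?_⟩
    obtain ⟨m, hm, hm'⟩ := hthin'.exists_int (max B 0)
    refine ⟨m, (le_max_left _ _).trans_lt hm, fun h3 => hm' ⟨?_, h3⟩⟩
    exact Int.cast_ne_zero.2 ((le_max_right _ _).trans_lt hm).ne'
  refine ⟨fun K _ _ n S hS => block_linked hS, fun k _ _ σ hσ r l n f hf s d S hS p q heq => ?_, main⟩
  obtain ⟨-, -, -, h2⟩ := main k σ hσ r l n f hf s d S hS p q heq.subset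
  obtain ⟨m, hm, hm'⟩ := h2 1
  refine hm' ?_
  rw [heq]
  show ‖σ (m : k)⁻¹‖ ≤ 1
  rw [map_inv₀, map_intCast, norm_inv]
  refine inv_le_one_of_one_le₀ ?_
  rw [Complex.norm_intCast]
  exact_mod_cast (hm.le.trans (le_abs_self m))

end Pool.Agent.Results.MP_c40b92_nt.NormEquations
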